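import Mathlib
import Pool.Agent.X216.SuperSingular
import Pool.Agent.X216.CircleDyn

namespace Pool.Agent.Results.MP_e0518f_lc.IrrationalHaarNull

open Set Filter Topology MeasureTheory

/-- The circle `ℝ/ℤ`. -/
abbrev Circ : Type := AddCircle (1 : ℝ)

/-- `F` is a lift of `f`: an increasing homeomorphism of the line (that is, an order isomorphism
of the line) that commutes with the unit translation and projects to `f`. -/
def IsLift (F : ℝ ≃o ℝ) (f : Circ ≃ₜ Circ) : Prop :=
  (∀ x, F (x + 1) = F x + 1) ∧ ∀ x : ℝ, ((F x : ℝ) : Circ) = f (x : Circ)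

lemma isLift_one : IsLift (OrderIso.refl ℝ) (1 : Circ ≃ₜ Circ) :=
  ⟨fun _ => rfl, fun _ => rfl⟩

lemma IsLift.mul {F G : ℝ ≃o ℝ} {f g : Circ ≃ₜ Circ} (hF : IsLift F f) (hG : IsLift G g) :
    IsLift (G.trans F) (f * g) := by
  refine ⟨fun x => ?_, fun x => ?_⟩
  · simp only [OrderIso.trans_apply, hG.1, hF.1]
  · rw [OrderIso.trans_apply, hF.2, hG.2, Homeomorph.mul_apply]

lemma IsLift.inv {F : ℝ ≃o ℝ} {f : Circ ≃ₜ Circ} (hF : IsLift F f) :
    IsLift F.symm f⁻¹ := by
  refine ⟨fun x => ?_, fun x => ?_⟩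
  · apply F.injective
    rw [F.apply_symm_apply, hF.1, F.apply_symm_apply]
  · have := hF.2 (F.symm x)
    rw [F.apply_symm_apply] at this
    rw [this]
    simp

/-- The group of orientation-preserving homeomorphisms of the circle. -/
def HPlus : Subgroup (Circ ≃ₜ Circ) where
  carrier := {f | ∃ F, IsLift F f}
  mul_mem' := by
    rintro f g ⟨F, hF⟩ ⟨G, hG⟩
    exact ⟨_, hF.mul hG⟩
  one_mem' := ⟨_, isLift_one⟩
  inv_mem' := by
    rintro f ⟨F, hF⟩
    exact ⟨_, hF.inv⟩

/-- The pair (homeomorphism, inverse), as continuous self-maps of the circle. -/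
def toPair (f : HPlus) : C(Circ, Circ) × C(Circ, Circ) :=
  (ContinuousMap.mk f.1 f.1.continuous, ContinuousMap.mk f.1.symm f.1.symm.continuous)

/-- The topology of uniform convergence of homeomorphisms and their inverses. -/
instance : TopologicalSpace HPlus := TopologicalSpace.induced toPair inferInstance

instance : MeasurableSpace HPlus := borel HPlus

instance : BorelSpace HPlus := ⟨rfl⟩

/-- Christensen's Haar null sets (two-sided translates), for a group with a topology and its
Borel sigma-algebra. -/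
def HaarNull {G : Type} [Group G] [TopologicalSpace G] [MeasurableSpace G] [BorelSpace G]
    (A : Set G) : Prop :=
  ∃ B : Set G, A ⊆ B ∧ MeasurableSet B ∧ ∃ μ : Measure G, IsProbabilityMeasure μ ∧
    ∀ g h : G, μ ((fun x => g * x * h) '' B) = 0

/-- The real number `ρ` is the translation number of some lift of `f`; the rotation number of `f`
is the class of `ρ` modulo one. -/
def HasRotationNumber (f : HPlus) (ρ : ℝ) : Prop :=
  ∃ F : ℝ ≃o ℝ, IsLift F f.1 ∧
    ∀ x : ℝ, Tendsto (fun n : ℕ => (F^[n] x - x) / (n : ℝ)) atTop (𝓝 ρ)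

/-- The homeomorphisms with irrational rotation number. -/
def I : Set HPlus := {f | ∃ ρ : ℝ, HasRotationNumber f ρ ∧ Irrational ρ}

/-! ### Building circle homeomorphisms from lifts -/

lemma periodic_of_lift (F : ℝ ≃o ℝ) (h : ∀ x, F (x + 1) = F x + 1) :
    Function.Periodic (fun x : ℝ => ((F x : ℝ) : Circ)) 1 := by
  intro x
  simp only [h]
  exact AddCircle.coe_add_period 1 (F x)

lemma symm_add_one {F : ℝ ≃o ℝ} (h : ∀ x, F (x + 1) = F x + 1) (x : ℝ) :
    F.symm (x + 1) = F.symm x + 1 := by
  apply F.injective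
  rw [F.apply_symm_apply, h, F.apply_symm_apply]

lemma continuous_lift (F : ℝ ≃o ℝ) (h : ∀ x, F (x + 1) = F x + 1) :
    Continuous (periodic_of_lift F h).lift := by
  have hq : IsQuotientMap ((↑) : ℝ → Circ) := QuotientAddGroup.isQuotientMap_mk _
  rw [hq.continuous_iff]
  exact (AddCircle.continuous_mk' 1).comp F.continuous

/-- the circle homeomorphism with a given lift -/
noncomputable def ofLift (F : ℝ ≃o ℝ) (h : ∀ x, F (x + 1) = F x + 1) : Circ ≃ₜ Circ where
  toFun := (periodic_of_lift F h).lift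
  invFun := (periodic_of_lift F.symm (symm_add_one h)).lift
  left_inv := by
    intro x
    induction x using QuotientAddGroup.induction_on with
    | H z =>
      rw [Function.Periodic.lift_coe, Function.Periodic.lift_coe, F.symm_apply_apply]
  right_inv := by
    intro x
    induction x using QuotientAddGroup.induction_on with
    | H z =>
      rw [Function.Periodic.lift_coe, Function.Periodic.lift_coe, F.apply_symm_apply]
  continuous_toFun := continuous_lift F h
  continuous_invFun := continuous_lift F.symm (symm_add_one h)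

lemma isLift_ofLift (F : ℝ ≃o ℝ) (h : ∀ x, F (x + 1) = F x + 1) : IsLift F (ofLift F h) :=
  ⟨h, fun _ => rfl⟩

open Pool.Agent.X216.SuperSingular Pool.Agent.X216.CircleDyn

lemma Psi_surjective : Function.Surjective Psi := by
  have hle : ∀ (k : ℤ), Psi k = k + Psi 0 := by
    intro k
    have := add_int Psi_add_one 0 k
    rw [zero_add] at this
    linarith
  intro y
  obtain ⟨k, hk⟩ : ∃ k : ℤ, y - Psi 0 ≤ k := ⟨⌈y - Psi 0⌉, Int.le_ceil _⟩
  obtain ⟨l, hl⟩ : ∃ l : ℤ, (l : ℝ) ≤ y - Psi 0 := ⟨⌊y - Psi 0⌋, Int.floor_le _⟩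
  exact mem_range_of_exists_le_of_exists_ge Psi_continuous ⟨l, by rw [hle]; linarith⟩
    ⟨k, by rw [hle]; linarith⟩

noncomputable def PsiIso : ℝ ≃o ℝ := StrictMono.orderIsoOfSurjective Psi Psi_strictMono Psi_surjective

lemma PsiIso_apply (x : ℝ) : PsiIso x = Psi x := rfl

/-- the super-singular circle homeomorphism -/
noncomputable def psi : Circ ≃ₜ Circ := ofLift PsiIso Psi_add_one

lemma psi_lift : IsLift PsiIso psi := isLift_ofLift _ _

/-- rotation -/
def rot (t : ℝ) : Circ ≃ₜ Circ := Homeomorph.addRight (t : Circ)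

lemma rot_lift (t : ℝ) : IsLift (OrderIso.addRight t) (rot t) := by
  refine ⟨fun x => ?_, fun x => ?_⟩
  · simp only [OrderIso.addRight_apply]; ring
  · simp only [OrderIso.addRight_apply, rot, Homeomorph.coe_addRight]
    exact AddCircle.coe_add 1 x t

/-- the random homeomorphism, indexed by pairs (t, s) -/
noncomputable def Theta (p : ℝ × ℝ) : HPlus :=
  ⟨rot p.1 * psi * rot (-p.2), _, ((rot_lift _).mul psi_lift).mul (rot_lift _)⟩

lemma continuous_Theta : Continuous Theta := by
  rw [continuous_induced_rng]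
  refine Continuous.prodMk ?_ ?_
  · apply ContinuousMap.continuous_of_continuous_uncurry
    show Continuous (fun q : (ℝ × ℝ) × Circ => psi (q.2 + ((-q.1.2 : ℝ) : Circ)) + ((q.1.1 : ℝ) : Circ))
    have h1 : Continuous ((↑) : ℝ → Circ) := AddCircle.continuous_mk' 1
    have h2 := psi.continuous
    fun_prop
  · apply ContinuousMap.continuous_of_continuous_uncurry
    show Continuous (fun q : (ℝ × ℝ) × Circ =>
      psi.symm (q.2 + - ((q.1.1 : ℝ) : Circ)) + - ((-q.1.2 : ℝ) : Circ))
    have h1 : Continuous ((↑) : ℝ → Circ) := AddCircle.continuous_mk' 1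
    have h2 := psi.symm.continuous
    fun_prop

/-- evaluation is jointly continuous -/
lemma continuous_ev : Continuous (fun q : HPlus × Circ => q.1.1 q.2) := by
  have h1 : Continuous (fun f : HPlus => (toPair f).1) :=
    continuous_fst.comp continuous_induced_dom
  have h2 : Continuous (fun q : HPlus × Circ => ((toPair q.1).1) q.2) :=
    (h1.comp continuous_fst).eval continuous_snd
  exact h2

/-- `f k` has no periodic point -/
def NoPer (k : HPlus) : Set HPlus := {f | ∀ n : ℕ, 0 < n → ∀ x : Circ, (⇑(f.1 * k.1))^[n] x ≠ x}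

lemma measurableSet_noPer (k : HPlus) : MeasurableSet (NoPer k) := by
  have hset : NoPer k = ⋂ n : ℕ, ⋂ _ : 0 < n,
      ((Prod.fst '' {q : HPlus × Circ | (⇑(q.1.1 * k.1))^[n] q.2 = q.2})ᶜ) := by
    ext f
    simp only [NoPer, mem_iInter, mem_compl_iff, mem_image, Prod.exists, exists_and_right,
      exists_eq_right, not_exists, Set.mem_ofPred_eq]
  rw [hset]
  refine MeasurableSet.iInter (fun n => MeasurableSet.iInter (fun _ => ?_))
  refine (IsClosed.measurableSet ?_).compl
  apply isClosedMap_fst_of_compactSpace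
  refine isClosed_eq ?_ continuous_snd
  have h1 : Continuous (fun q : HPlus × Circ => (q.1, q.1.1 (k.1 q.2))) :=
    continuous_fst.prodMk (continuous_ev.comp
      (continuous_fst.prodMk (k.1.continuous.comp continuous_snd)))
  have h2 : ∀ (n : ℕ) (q : HPlus × Circ),
      (fun q : HPlus × Circ => (q.1, q.1.1 (k.1 q.2)))^[n] q = (q.1, (⇑(q.1.1 * k.1))^[n] q.2) := by
    intro n
    induction n with
    | zero => intro q; rfl
    | succ n ih =>
      intro q
      rw [Function.iterate_succ_apply, ih, Function.iterate_succ_apply]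
      rfl
  have h3 : (fun q : HPlus × Circ => (⇑(q.1.1 * k.1))^[n] q.2) =
      fun q => ((fun q : HPlus × Circ => (q.1, q.1.1 (k.1 q.2)))^[n] q).2 := by
    ext q; rw [h2]
  rw [h3]
  exact continuous_snd.comp (h1.iterate n)

lemma lift_iterate {F : ℝ ≃o ℝ} {f : Circ ≃ₜ Circ} (h : IsLift F f) (n : ℕ) (x : ℝ) :
    ((F^[n] x : ℝ) : Circ) = f^[n] (x : Circ) := by
  induction n generalizing x with
  | zero => rfl
  | succ n ih => rw [Function.iterate_succ_apply, ih, h.2, Function.iterate_succ_apply]

lemma lift_iterate_add_int {F : ℝ ≃o ℝ} {f : Circ ≃ₜ Circ} (h : IsLift F f) (n : ℕ) (x : ℝ)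
    (m : ℤ) : F^[n] (x + m) = F^[n] x + m := by
  induction n generalizing x with
  | zero => rfl
  | succ n ih =>
    rw [Function.iterate_succ_apply, add_int h.1, ih, Function.iterate_succ_apply]

lemma coe_eq_iff {x y : ℝ} : (x : Circ) = (y : Circ) ↔ ∃ m : ℤ, x = y + m := by
  rw [← sub_eq_zero, ← AddCircle.coe_sub, AddCircle.coe_eq_zero_iff]
  simp only [zsmul_eq_mul, mul_one]
  constructor
  · rintro ⟨n, hn⟩; exact ⟨n, by linarith⟩
  · rintro ⟨n, hn⟩; exact ⟨n, by linarith⟩

lemma I_subset : I ⊆ NoPer 1 := by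
  rintro f ⟨ρ, ⟨F, hF, hlim⟩, hirr⟩ n hn x hx
  have e1 : (f.1 * (1 : HPlus).1) = f.1 := mul_one _
  rw [e1] at hx
  induction x using QuotientAddGroup.induction_on with
  | H z =>
    have h1 : ((F^[n] z : ℝ) : Circ) = ((z : ℝ) : Circ) := by
      rw [lift_iterate hF]; exact hx
    obtain ⟨m, hm⟩ := coe_eq_iff.1 h1
    have h2 : ∀ k : ℕ, F^[n * k] z = z + k * m := by
      intro k
      induction k with
      | zero => simp
      | succ k ih =>
        have e2 : n * (k + 1) = n + n * k := by ring
        rw [e2, Function.iterate_add_apply, ih]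
        have := lift_iterate_add_int hF n z (k * m)
        push_cast at this ⊢
        rw [this, hm]; ring
    have h3 : Tendsto (fun k : ℕ => n * (k + 1)) atTop atTop := by
      apply tendsto_atTop_mono (f := fun k => k)
      · intro k
        nlinarith
      · exact tendsto_id
    have h4 := (hlim z).comp h3
    have h5 : ((fun n : ℕ => (F^[n] z - z) / (n : ℝ)) ∘ (fun k : ℕ => n * (k + 1))) =
        fun _ => (m : ℝ) / n := by
      ext k
      simp only [Function.comp]
      rw [h2]
      have hn' : (n : ℝ) ≠ 0 := by exact_mod_cast hn.ne'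
      have hk' : (k : ℝ) + 1 ≠ 0 := by positivity
      push_cast
      field_simp
      ring
    rw [h5] at h4
    have h6 : ρ = (m : ℝ) / n := tendsto_nhds_unique h4 tendsto_const_nhds
    apply hirr
    refine ⟨(m : ℚ) / n, ?_⟩
    rw [h6]; push_cast; rfl

lemma image_noPer (g h : HPlus) :
    (fun x => g * x * h) '' (NoPer 1) = NoPer (h⁻¹ * g⁻¹) := by
  have key : ∀ (f : HPlus) (n : ℕ) (x : Circ),
      (⇑((g * f * h).1 * (h⁻¹ * g⁻¹).1))^[n] (g.1 x) = g.1 ((⇑(f.1 * (1 : HPlus).1))^[n] x) := by
    intro f n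
    induction n with
    | zero => intro x; rfl
    | succ n ih =>
      intro x
      have : ((g * f * h).1 * (h⁻¹ * g⁻¹).1) (g.1 x) = g.1 ((f.1 * (1 : HPlus).1) x) := by
        have e : ((g * f * h).1 * (h⁻¹ * g⁻¹).1) = g.1 * f.1 * g.1⁻¹ := by
          simp only [Subgroup.coe_mul, Subgroup.coe_inv]
          group
        rw [e]
        simp
      rw [Function.iterate_succ_apply, this, ih, Function.iterate_succ_apply]
  ext y
  constructor
  · rintro ⟨f, hf, rfl⟩ n hn x hx
    obtain ⟨z, rfl⟩ := g.1.surjective x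
    simp only at hx
    rw [key] at hx
    exact hf n hn z (g.1.injective hx)
  · intro hy
    refine ⟨g⁻¹ * y * h⁻¹, ?_, by group⟩
    intro n hn x hx
    have := key (g⁻¹ * y * h⁻¹) n x
    rw [hx] at this
    have e : g * (g⁻¹ * y * h⁻¹) * h = y := by group
    rw [e] at this
    exact hy n hn _ this

lemma theta_null (k : HPlus) : mu0 (Theta ⁻¹' (NoPer k)) = 0 := by
  obtain ⟨K, hK⟩ := k.2
  have hbound : ∀ ε : ℝ, 0 < ε → mu0 (Theta ⁻¹' (NoPer k)) ≤ ENNReal.ofReal ε := by
    intro ε hε
    obtain ⟨N, hN, η, h0, h1, hlt⟩ := Psi_singular ε hε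
    have hb := bad_measure (K := K) Psi_strictMono.monotone Psi_add_one K.continuous K.monotone
      hK.1 hN h1 h0
    refine le_trans (measure_mono ?_) (hb.trans (ENNReal.ofReal_le_ofReal hlt.le))
    rintro ⟨t, s⟩ hp
    by_contra hbad
    have hgood : ∀ i j : ℤ, ¬ (K (Psi (i / N + η) + t) - η ≤ s + j / N ∧
      s + j / N ≤ K (Psi ((i + 1) / N) + t)) := by
      intro i j hij
      exact hbad ⟨i, j, hij⟩
    obtain ⟨n, hn, x, m, hx⟩ := periodic_of_good Psi_continuous Psi_strictMono.monotone
      Psi_add_one K.continuous K.monotone hN h1 h0 s t hgood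
    have hl : IsLift (K.trans (((OrderIso.addRight (-s)).trans PsiIso).trans (OrderIso.addRight t)))
        ((Theta (t, s)).1 * k.1) := by
      have h := (((rot_lift t).mul psi_lift).mul (rot_lift (-s))).mul hK
      exact h
    refine hp n hn (x : Circ) ?_
    rw [← lift_iterate hl, coe_eq_iff]
    exact ⟨m, hx⟩
  refine le_antisymm ?_ zero_le
  have ht : Tendsto (fun n : ℕ => ENNReal.ofReal (1 / ((n : ℝ) + 1))) atTop (𝓝 0) := by
    have := ENNReal.tendsto_ofReal (tendsto_one_div_add_atTop_nhds_zero_nat (𝕜 := ℝ))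
    rwa [ENNReal.ofReal_zero] at this
  exact ge_of_tendsto' ht (fun n => hbound _ (by positivity))

theorem result : HaarNull I := by
  refine ⟨NoPer 1, I_subset, measurableSet_noPer 1, mu0.map Theta, ?_, ?_⟩
  · have : IsProbabilityMeasure mu0 := by
      unfold mu0
      have : IsProbabilityMeasure ((volume : Measure ℝ).restrict (Ioc (0:ℝ) 1)) :=
        ⟨by simp⟩
      infer_instance
    exact Measure.isProbabilityMeasure_map continuous_Theta.aemeasurable
  · intro g h
    rw [image_noPer, Measure.map_apply continuous_Theta.measurable (measurableSet_noPer _)]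
    exact theta_null _

end Pool.Agent.Results.MP_e0518f_lc.IrrationalHaarNull
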